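import Pool.Agent.Lib.MP_b5021c_nt.IfaceE3
import Pool.Agent.Lib.MP_b5021c_nt.B.H70.Mm

/-!
# Board b5, chapter E3, row E3_T0: the constant coefficient of `tau` is one
-/

namespace Pool.Agent.B5.H03

open scoped LaurentPolynomial
open Polynomial Pool.Agent.B5
open Pool.Agent.MP_b5021c_nt (nz)

theorem sum_Icc_int (g : ℤ → ℂ) (n : ℕ) :
    ∑ k ∈ Finset.Icc (-(n : ℤ)) n, g k
      = g 0 + ∑ k ∈ Finset.range n, (g ((k : ℤ) + 1) + g (-((k : ℤ) + 1))) := by
  induction n with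
  | zero => simp
  | succ n ih =>
    have h1 : Finset.Icc (-((n + 1 : ℕ) : ℤ)) ((n + 1 : ℕ) : ℤ)
        = insert ((n : ℤ) + 1) (insert (-((n : ℤ) + 1)) (Finset.Icc (-(n : ℤ)) n)) := by
      ext x
      simp only [Finset.mem_Icc, Finset.mem_insert]
      push_cast
      omega
    rw [h1, Finset.sum_insert, Finset.sum_insert, ih, Finset.sum_range_succ]
    · ring
    · simp only [Finset.mem_Icc]; omega
    · simp only [Finset.mem_Icc, Finset.mem_insert]; omega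

section

variable {O : Type} [CommRing O] [Coef O]

theorem evR_Icc (t : RO O) :
    ∃ n : ℕ, ∀ z : Circle, evR z t
      = ∑ k ∈ Finset.Icc (-(n : ℤ)) n, (Coef.emb (t.coeff k) : ℂ) * ((z : ℂ) ^ k) := by
  obtain ⟨n, hn⟩ : ∃ n : ℕ, ∀ k ∈ t.coeff.support, k.natAbs ≤ n :=
    ⟨t.coeff.support.sup Int.natAbs, fun k hk => Finset.le_sup (f := Int.natAbs) hk⟩
  refine ⟨n, fun z => ?_⟩
  rw [H36.evR_eq, Finsupp.sum]
  apply Finset.sum_subset
  · intro k hk
    have := hn k hk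
    simp only [Finset.mem_Icc]
    omega
  · intro k _ hk
    rw [Finsupp.notMem_support_iff.mp hk, map_zero, zero_mul]

/-- The polynomial `sum_{1 ≤ k ≤ n} t_k z^k`. -/
noncomputable def tpl (t : RO O) (n : ℕ) : ℂ[X] :=
  ∑ k ∈ Finset.range n, monomial (k + 1) (Coef.emb (t.coeff ((k : ℤ) + 1)) : ℂ)

theorem tpl_eval (t : RO O) (n : ℕ) (z : ℂ) :
    (tpl t n).eval z = ∑ k ∈ Finset.range n, (Coef.emb (t.coeff ((k : ℤ) + 1)) : ℂ) * z ^ (k + 1) := by
  rw [tpl, eval_finsetSum]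
  exact Finset.sum_congr rfl fun k _ => eval_monomial

theorem tpl_coeff_zero (t : RO O) (n : ℕ) : (tpl t n).coeff 0 = 0 := by
  rw [tpl, finsetSum_coeff]
  apply Finset.sum_eq_zero
  intro k _
  rw [coeff_monomial, if_neg (by omega)]

theorem tpl_coeff_one (t : RO O) (n : ℕ) :
    (tpl t n).coeff 1 = if 0 < n then (Coef.emb (t.coeff 1) : ℂ) else 0 := by
  rw [tpl, finsetSum_coeff]
  by_cases hn : 0 < n
  · rw [if_pos hn, Finset.sum_eq_single 0]
    · rw [coeff_monomial, if_pos rfl]; simp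
    · intro k _ hk
      rw [coeff_monomial, if_neg (by omega)]
    · intro h
      exact absurd (Finset.mem_range.mpr hn) h
  · rw [if_neg hn]
    have : n = 0 := by omega
    subst this
    simp

theorem re_evR (t : RO O) (ht : ∀ k : ℤ, k ≠ 0 →
    (Coef.emb (t.coeff (-k)) : ℂ) = (starRingEnd ℂ) (Coef.emb (t.coeff k))) :
    ∃ n : ℕ, ∀ z : Circle, (evR z t).re
      = (Coef.emb (t.coeff 0) : ℂ).re + 2 * ((tpl t n).eval (z : ℂ)).re := by
  obtain ⟨n, hn⟩ := evR_Icc t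
  refine ⟨n, fun z => ?_⟩
  rw [hn z, sum_Icc_int, zpow_zero, mul_one, Complex.add_re, tpl_eval, Complex.re_sum,
    Complex.re_sum, Finset.mul_sum]
  congr 1
  apply Finset.sum_congr rfl
  intro k _
  have h1 : (Coef.emb (t.coeff (-((k : ℤ) + 1))) : ℂ) * (z : ℂ) ^ (-((k : ℤ) + 1))
      = (starRingEnd ℂ) ((Coef.emb (t.coeff ((k : ℤ) + 1)) : ℂ) * (z : ℂ) ^ ((k : ℤ) + 1)) := by
    rw [map_mul, ht _ (by omega), map_zpow₀, zpow_neg, ← inv_zpow]
    congr 2
    rw [← Circle.coe_inv_eq_conj, Circle.coe_inv]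
  rw [h1, Complex.add_re, Complex.conj_re]
  have h2 : (z : ℂ) ^ ((k : ℤ) + 1) = (z : ℂ) ^ (k + 1) := by
    rw [← zpow_natCast]; push_cast; rfl
  rw [h2]
  ring

end

theorem t03 (hNr : Nr3S) (hPc : Pc3S) (hA7 : A7S) (hA2 : A2cS) : T03S := by
  intro O _ _ _ _ t m q f ht0 hnn hq0 hnz hqc hyp hM
  by_contra hne
  obtain ⟨-, hco, hor⟩ := hNr O t ht0 hnn
  have ht2 : 2 ≤ (Coef.emb (t.coeff 0) : ℂ).re := by
    rcases hor with h | h
    · exact absurd h hne
    · exact h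
  set t0 : ℝ := (Coef.emb (t.coeff 0) : ℂ).re with ht0def
  obtain ⟨n, hre⟩ := re_evR t (fun k hk => (hco k hk).2)
  set tp : ℂ[X] := tpl t n with htp
  set qc : ℂ[X] := q.map (Coef.emb : O →+* ℂ) with hqcdef
  set fc : ℂ[X] := f.map (Coef.emb : O →+* ℂ) with hfcdef
  set vc : ℂ[X] := (q + X * f).map (Coef.emb : O →+* ℂ) with hvcdef
  have hvc : vc = qc + X * fc := by
    rw [hvcdef, hqcdef, hfcdef, Polynomial.map_add, Polynomial.map_mul, Polynomial.map_X]
  have hq0c : ‖qc.coeff 0‖ = 1 := by rw [hqcdef, coeff_map]; exact hq0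
  have hv0 : vc.coeff 0 = qc.coeff 0 := by rw [hvc, coeff_add, coeff_X_mul_zero, add_zero]
  have hvne : vc ≠ 0 := by
    intro h
    rw [h, coeff_zero] at hv0
    rw [← hv0, norm_zero] at hq0c
    exact zero_ne_one hq0c
  -- the hypothesis
  have H1 : ∀ z : Circle, (1 + (evR z t).re) * ‖vc.eval (z : ℂ)‖ ^ 2
      ≤ 2 * (qc.eval (z : ℂ) * (starRingEnd ℂ) (vc.eval (z : ℂ))).re := by
    intro z
    have h := hyp z
    rw [H70.norm_evR_T_mul, H70.evR_T_mul, H70.evR_T_mul] at h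
    have h2 : ((z : ℂ) ^ m * (q.map (Coef.emb : O →+* ℂ)).eval (z : ℂ) *
        (starRingEnd ℂ) ((z : ℂ) ^ m * ((q + X * f).map (Coef.emb : O →+* ℂ)).eval (z : ℂ)))
        = qc.eval (z : ℂ) * (starRingEnd ℂ) (vc.eval (z : ℂ)) := by
      have h3 : (z : ℂ) ^ m * (starRingEnd ℂ) ((z : ℂ) ^ m) = 1 := by
        rw [Complex.mul_conj, Complex.normSq_eq_norm_sq, norm_zpow, Circle.norm_coe, one_zpow]
        norm_num
      rw [map_mul]
      linear_combination (qc.eval (z : ℂ) * (starRingEnd ℂ) (vc.eval (z : ℂ))) * h3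
    rw [h2] at h
    nlinarith [h]
  have htnn : ∀ z : Circle, 0 ≤ (evR z t).re := fun z => (hnn z).2
  set F : ℂ[X] := qc - (1 + tp) * vc with hF
  have H2 : ∀ z : Circle, (t0 - 1) / 2 * ‖vc.eval (z : ℂ)‖ ^ 2
      ≤ (F.eval (z : ℂ) * (starRingEnd ℂ) (vc.eval (z : ℂ))).re := by
    intro z
    have h1 := H1 z
    have h2 := hre z
    have h3 : (F.eval (z : ℂ) * (starRingEnd ℂ) (vc.eval (z : ℂ))).re
        = (qc.eval (z : ℂ) * (starRingEnd ℂ) (vc.eval (z : ℂ))).re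
          - (1 + (tp.eval (z : ℂ)).re) * ‖vc.eval (z : ℂ)‖ ^ 2 := by
      have h4 : vc.eval (z : ℂ) * (starRingEnd ℂ) (vc.eval (z : ℂ))
          = ((‖vc.eval (z : ℂ)‖ ^ 2 : ℝ) : ℂ) := by
        rw [Complex.mul_conj, Complex.normSq_eq_norm_sq]
      have h5 : F.eval (z : ℂ) * (starRingEnd ℂ) (vc.eval (z : ℂ))
          = qc.eval (z : ℂ) * (starRingEnd ℂ) (vc.eval (z : ℂ))
            - (1 + tp.eval (z : ℂ)) * ((‖vc.eval (z : ℂ)‖ ^ 2 : ℝ) : ℂ) := by
        rw [← h4, hF]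
        simp only [eval_sub, eval_mul, eval_add, eval_one]
        ring
      rw [h5, Complex.sub_re, Complex.re_mul_ofReal, Complex.add_re, Complex.one_re]
    rw [h3]
    nlinarith [h1, h2, sq_nonneg ‖vc.eval (z : ℂ)‖]
  have H3 : ∀ z : Circle, (t0 - 1) / 2 * ‖vc.eval (z : ℂ)‖ ≤ ‖F.eval (z : ℂ)‖ := by
    intro z
    by_cases hv : ‖vc.eval (z : ℂ)‖ = 0
    · rw [hv, mul_zero]; exact norm_nonneg _
    · have hv' : 0 < ‖vc.eval (z : ℂ)‖ := lt_of_le_of_ne (norm_nonneg _) (Ne.symm hv)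
      have h1 := H2 z
      have h2 : (F.eval (z : ℂ) * (starRingEnd ℂ) (vc.eval (z : ℂ))).re
          ≤ ‖F.eval (z : ℂ)‖ * ‖vc.eval (z : ℂ)‖ := by
        calc _ ≤ ‖F.eval (z : ℂ) * (starRingEnd ℂ) (vc.eval (z : ℂ))‖ := Complex.re_le_norm _
          _ = _ := by rw [norm_mul, RCLike.norm_conj]
      have h3 : ((t0 - 1) / 2 * ‖vc.eval (z : ℂ)‖) * ‖vc.eval (z : ℂ)‖
          ≤ ‖F.eval (z : ℂ)‖ * ‖vc.eval (z : ℂ)‖ := by nlinarith
      exact le_of_mul_le_mul_right h3 hv'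
  have toC : ∀ z : ℂ, ‖z‖ = 1 → ∃ w : Circle, (w : ℂ) = z := fun z hz =>
    ⟨⟨z, mem_sphere_zero_iff_norm.mpr hz⟩, rfl⟩
  have hFne : F ≠ 0 := by
    intro h
    apply hvne
    have h1 : ∀ z : ℂ, ‖z‖ = 1 → vc.eval z = 0 := by
      intro z hz
      obtain ⟨w, rfl⟩ := toC z hz
      have h2 := H3 w
      rw [h, eval_zero, norm_zero] at h2
      have h3 : ‖vc.eval (w : ℂ)‖ ≤ 0 := by
        by_contra h4
        push Not at h4
        nlinarith
      exact norm_le_zero_iff.mp h3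
    have h2 : (Metric.sphere (0 : ℂ) 1).Infinite := by
      have h3 : ((fun x : ℝ => Complex.exp (x * Complex.I)) '' Set.Icc (0 : ℝ) 1).Infinite := by
        apply Set.Infinite.image _ (Set.Icc_infinite one_pos)
        intro a ha b hb hab
        simp only at hab
        have hpi := Real.pi_gt_three
        have h4 := Complex.exp_inj_of_neg_pi_lt_of_le_pi (x := a * Complex.I) (y := b * Complex.I)
          (by simp; linarith [ha.1]) (by simp; linarith [ha.2])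
          (by simp; linarith [hb.1]) (by simp; linarith [hb.2]) hab
        have h5 := congrArg Complex.im h4
        simpa using h5
      apply h3.mono
      rintro _ ⟨x, _, rfl⟩
      rw [mem_sphere_zero_iff_norm, Complex.norm_exp_ofReal_mul_I]
    exact Polynomial.eq_zero_of_infinite_isRoot vc
      (h2.mono fun z hz => h1 z (mem_sphere_zero_iff_norm.mp hz))
  -- F = X * E
  have hF0 : F.coeff 0 = 0 := by
    rw [hF, coeff_sub, mul_coeff_zero, coeff_add, coeff_one_zero, htp, tpl_coeff_zero, hv0]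
    ring
  set E : ℂ[X] := F.divX with hE
  have hFE : F = X * E := by
    have := Polynomial.X_mul_divX_add F
    rw [hF0, C_0, add_zero] at this
    exact this.symm
  have hEne : E ≠ 0 := by
    intro h
    rw [h, mul_zero] at hFE
    exact hFne hFE
  have hE0 : ‖E.coeff 0‖ ≤ ‖(Coef.emb (f.coeff 0) : ℂ)‖ + t0 := by
    have h1 : E.coeff 0 = F.coeff 1 := by rw [hE, coeff_divX]
    have h2 : F.coeff 1 = - fc.coeff 0 - tp.coeff 1 * qc.coeff 0 := by
      rw [hF, coeff_sub, add_mul, one_mul, coeff_add]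
      have h3 : (tp * vc).coeff 1 = tp.coeff 1 * vc.coeff 0 := by
        rw [coeff_mul, Finset.Nat.antidiagonal_succ]
        simp [htp, tpl_coeff_zero]
      have h4 : vc.coeff 1 = qc.coeff 1 + fc.coeff 0 := by
        rw [hvc, coeff_add, coeff_X_mul]
      rw [h3, h4, hv0]
      ring
    have h5 : ‖tp.coeff 1‖ ≤ t0 := by
      rw [htp, tpl_coeff_one]
      split_ifs
      · exact (hco 1 one_ne_zero).1.le
      · rw [norm_zero]; linarith
    have h6 : fc.coeff 0 = (Coef.emb (f.coeff 0) : ℂ) := by rw [hfcdef, coeff_map]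
    rw [h1, h2]
    calc ‖- fc.coeff 0 - tp.coeff 1 * qc.coeff 0‖ ≤ ‖- fc.coeff 0‖ + ‖tp.coeff 1 * qc.coeff 0‖ :=
          norm_sub_le _ _
      _ = ‖(Coef.emb (f.coeff 0) : ℂ)‖ + ‖tp.coeff 1‖ := by
          rw [norm_neg, norm_mul, hq0c, mul_one, h6]
      _ ≤ _ := by linarith
  -- nz F ≤ 1
  have hFnz : nz F ≤ 1 := by
    set C0 : ℝ := 1 + ∑ k ∈ Finset.range n, ‖(Coef.emb (t.coeff ((k : ℤ) + 1)) : ℂ)‖ with hC0
    have hC0pos : 0 ≤ C0 := by
      rw [hC0]
      have : 0 ≤ ∑ k ∈ Finset.range n, ‖(Coef.emb (t.coeff ((k : ℤ) + 1)) : ℂ)‖ :=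
        Finset.sum_nonneg fun _ _ => norm_nonneg _
      linarith
    have hbd : ∀ z : Circle, ‖1 + tp.eval (z : ℂ)‖ ≤ C0 := by
      intro z
      rw [htp, tpl_eval, hC0]
      calc _ ≤ ‖(1 : ℂ)‖ + ‖∑ k ∈ Finset.range n, (Coef.emb (t.coeff ((k : ℤ) + 1)) : ℂ) * (z : ℂ) ^ (k + 1)‖ :=
            norm_add_le _ _
        _ ≤ 1 + ∑ k ∈ Finset.range n, ‖(Coef.emb (t.coeff ((k : ℤ) + 1)) : ℂ) * (z : ℂ) ^ (k + 1)‖ := by
            rw [norm_one]
            linarith [norm_sum_le (Finset.range n) (fun k =>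
              (Coef.emb (t.coeff ((k : ℤ) + 1)) : ℂ) * (z : ℂ) ^ (k + 1))]
        _ = _ := by
            congr 1
            apply Finset.sum_congr rfl
            intro k _
            rw [norm_mul, norm_pow, Circle.norm_coe, one_pow, mul_one]
    set lam : ℝ := C0 ^ 2 with hlam
    have hqv : ∀ z : Circle, 0 ≤ (vc.eval (z : ℂ) * (starRingEnd ℂ) (qc.eval (z : ℂ))).re := by
      intro z
      have h1 := H1 z
      have h2 := htnn z
      have h3 : (vc.eval (z : ℂ) * (starRingEnd ℂ) (qc.eval (z : ℂ))).re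
          = (qc.eval (z : ℂ) * (starRingEnd ℂ) (vc.eval (z : ℂ))).re := by
        rw [Complex.mul_re, Complex.mul_re, Complex.conj_re, Complex.conj_im, Complex.conj_re,
          Complex.conj_im]
        ring
      rw [h3]
      nlinarith [sq_nonneg ‖vc.eval (z : ℂ)‖]
    obtain ⟨ha1, ha2, -⟩ := hPc qc (C (lam : ℂ) * vc) hnz hqc (by
      intro z hz
      obtain ⟨w, rfl⟩ := toC z hz
      rw [eval_mul, eval_C, mul_assoc, Complex.re_ofReal_mul]
      exact mul_nonneg (sq_nonneg _) (hqv w))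
    obtain ⟨-, -, hb⟩ := hPc (qc + C (lam : ℂ) * vc) F ha1 ha2 (by
      intro z hz
      obtain ⟨w, rfl⟩ := toC z hz
      have h1 : (F.eval (w : ℂ) * (starRingEnd ℂ) ((qc + C (lam : ℂ) * vc).eval (w : ℂ))).re
          = (F.eval (w : ℂ) * (starRingEnd ℂ) (qc.eval (w : ℂ))).re
            + lam * (F.eval (w : ℂ) * (starRingEnd ℂ) (vc.eval (w : ℂ))).re := by
        rw [eval_add, eval_mul, eval_C, map_add, map_mul, Complex.conj_ofReal, mul_add,
          Complex.add_re, mul_left_comm, Complex.re_ofReal_mul]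
      have h2 : ‖qc.eval (w : ℂ)‖ ^ 2 - C0 * ‖vc.eval (w : ℂ)‖ * ‖qc.eval (w : ℂ)‖
          ≤ (F.eval (w : ℂ) * (starRingEnd ℂ) (qc.eval (w : ℂ))).re := by
        have h3 : F.eval (w : ℂ) * (starRingEnd ℂ) (qc.eval (w : ℂ))
            = ((‖qc.eval (w : ℂ)‖ ^ 2 : ℝ) : ℂ)
              - (1 + tp.eval (w : ℂ)) * vc.eval (w : ℂ) * (starRingEnd ℂ) (qc.eval (w : ℂ)) := by
          have h4 : qc.eval (w : ℂ) * (starRingEnd ℂ) (qc.eval (w : ℂ))
              = ((‖qc.eval (w : ℂ)‖ ^ 2 : ℝ) : ℂ) := by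
            rw [Complex.mul_conj, Complex.normSq_eq_norm_sq]
          rw [← h4, hF]
          simp only [eval_sub, eval_mul, eval_add, eval_one]
          ring
        rw [h3, Complex.sub_re, Complex.ofReal_re]
        have h5 : ((1 + tp.eval (w : ℂ)) * vc.eval (w : ℂ) * (starRingEnd ℂ) (qc.eval (w : ℂ))).re
            ≤ C0 * ‖vc.eval (w : ℂ)‖ * ‖qc.eval (w : ℂ)‖ := by
          calc _ ≤ ‖(1 + tp.eval (w : ℂ)) * vc.eval (w : ℂ) * (starRingEnd ℂ) (qc.eval (w : ℂ))‖ :=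
                Complex.re_le_norm _
            _ = ‖1 + tp.eval (w : ℂ)‖ * ‖vc.eval (w : ℂ)‖ * ‖qc.eval (w : ℂ)‖ := by
                rw [norm_mul, norm_mul, RCLike.norm_conj]
            _ ≤ _ := by
                gcongr
                exact hbd w
        linarith
      rw [h1]
      have h6 := H2 w
      have h7 : lam * ((1 / 2) * ‖vc.eval (w : ℂ)‖ ^ 2)
          ≤ lam * (F.eval (w : ℂ) * (starRingEnd ℂ) (vc.eval (w : ℂ))).re := by
        apply mul_le_mul_of_nonneg_left _ (sq_nonneg _)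
        nlinarith [sq_nonneg ‖vc.eval (w : ℂ)‖]
      have h8 : 0 ≤ ‖qc.eval (w : ℂ)‖ ^ 2 - C0 * ‖vc.eval (w : ℂ)‖ * ‖qc.eval (w : ℂ)‖
          + C0 ^ 2 * ((1 / 2) * ‖vc.eval (w : ℂ)‖ ^ 2) := by
        nlinarith [sq_nonneg (‖qc.eval (w : ℂ)‖ - C0 * ‖vc.eval (w : ℂ)‖ / 2),
          sq_nonneg (C0 * ‖vc.eval (w : ℂ)‖)]
      rw [hlam] at h7 ⊢
      linarith)
    exact hb hFne
  have hEz : ZF E := by
    intro s hs h0
    have h1 : F.roots = {0} + E.roots := by
      rw [hFE, roots_mul (by rw [← hFE]; exact hFne), roots_X]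
    have h2 : s ∈ E.roots := (mem_roots hEne).mpr h0
    have h3 : 1 ≤ (E.roots.filter (fun z => ‖z‖ < 1)).card := by
      rw [Nat.one_le_iff_ne_zero, Ne, Multiset.card_eq_zero]
      intro h4
      have h5 : s ∈ E.roots.filter (fun z => ‖z‖ < 1) := Multiset.mem_filter.mpr ⟨h2, hs⟩
      rw [h4] at h5
      exact absurd h5 (Multiset.notMem_zero s)
    have h4 : nz F = 1 + (E.roots.filter (fun z => ‖z‖ < 1)).card := by
      rw [nz, h1, Multiset.filter_add, Multiset.card_add]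
      congr 1
      rw [Multiset.filter_singleton, if_pos (by simp), Multiset.card_singleton]
    omega
  have hME : E.mahlerMeasure = ‖E.coeff 0‖ := hA7 E hEz
  have hMF : F.mahlerMeasure = ‖E.coeff 0‖ := by
    rw [hFE, mahlerMeasure_mul, (by simpa using mahlerMeasure_X_sub_C (0 : ℂ) : (X : ℂ[X]).mahlerMeasure = 1), one_mul, hME]
  have hMv : vc.mahlerMeasure ≤ 2 / (t0 - 1) * F.mahlerMeasure := by
    have h1 := hA2 Unit (fun _ => vc) F (2 / (t0 - 1)) hFne (div_pos two_pos (by linarith)) (by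
      intro z hz
      obtain ⟨w, rfl⟩ := toC z hz
      rw [Fintype.sum_unique]
      have h2 := H3 w
      rw [div_mul_eq_mul_div, le_div_iff₀ (by linarith)]
      nlinarith)
    rw [Fintype.sum_unique] at h1
    exact h1
  have hqne : q + X * f ≠ 0 := by
    intro h
    apply hvne
    rw [hvcdef, h, Polynomial.map_zero]
  rw [H70.M_T_mul _ _ hqne] at hM
  have h1 : vc.mahlerMeasure ≤ 2 / (t0 - 1) * (‖(Coef.emb (f.coeff 0) : ℂ)‖ + t0) := by
    calc _ ≤ _ := hMv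
      _ ≤ _ := by
        rw [hMF]
        apply mul_le_mul_of_nonneg_left hE0
        exact (div_pos two_pos (by linarith)).le
  have h2 : 2 / (t0 - 1) * (‖(Coef.emb (f.coeff 0) : ℂ)‖ + t0)
      ≤ 2 * ‖(Coef.emb (f.coeff 0) : ℂ)‖ + 4 := by
    rw [div_mul_eq_mul_div, div_le_iff₀ (by linarith)]
    nlinarith [norm_nonneg (Coef.emb (f.coeff 0) : ℂ)]
  have h3 : vc.mahlerMeasure = ((q + X * f).map (Coef.emb : O →+* ℂ)).mahlerMeasure := by
    rw [hvcdef]
  linarith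

end Pool.Agent.B5.H03
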