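import Pool.Agent.Lib.MP_b5021c_nt.IfaceEF
import Pool.Agent.Lib.MP_b5021c_nt.H96.Emb
import Pool.Agent.Lib.MP_b5021c_nt.Z.H39.Grd
import Pool.Agent.Lib.MP_b5021c_nt.B.H59.CstA
import Pool.Agent.Lib.MP_b5021c_nt.B.H91.A1r

/-!
# MP_b5021c_nt, stage 3, chapter EF: row EF_WCM
-/

namespace Pool.Agent.B5.H03

open Pool.Agent.B5 Pool.Agent.B5.H96 Pool.Agent.B5.Z.H39
open scoped LaurentPolynomial

section

variable {O : Type} [CommRing O] [IsDomain O] [Coef O] {L : Type} [AddCommGroup L]

theorem sl_scal (u : AddChar L Circle) (lam : L →+ ℤ) (p q : CA L) (k : ℂ) (hk : k ≠ 0)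
    (h : ∀ a, p.coeff a = k * q.coeff a) : sl u lam p = Polynomial.C k * sl u lam q := by
  have hs : p.coeff.support = q.coeff.support := by
    ext a
    rw [Finsupp.mem_support_iff, Finsupp.mem_support_iff, h a]
    simp [hk]
  unfold sl
  rw [Finsupp.sum, Finsupp.sum, hs, Finset.mul_sum]
  refine Finset.sum_congr rfl fun a _ => ?_
  rw [h a, Polynomial.C_mul_monomial]
  congr 1
  ring

/-- Scaling by a constant without zeros on the circle. -/
theorem stable_of_cst {c : RO O} {G : AO O L} (hc : ∀ z : Circle, evR z c ≠ 0)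
    (h : Stable (cst c * G : AO O L)) : Stable G := by
  obtain ⟨h0, lam, hp, hs⟩ := h
  have hco : ∀ a, (cst c * G : AO O L).coeff a = c * G.coeff a := fun a => cst_mul_coeff c G a
  have hc0 : c ≠ 0 := by
    rintro rfl
    exact hc 1 (map_zero _)
  refine ⟨?_, lam, ?_, ?_⟩
  · intro hG
    apply h0
    rw [hco, hG, mul_zero]
  · intro a ha ha0
    apply hp a _ ha0
    rw [Finsupp.mem_support_iff, hco]
    exact mul_ne_zero hc0 (Finsupp.mem_support_iff.1 ha)
  · intro z hz u s hs1 hev
    apply hs z (by rw [hco, map_mul]; exact mul_ne_zero (hc z) hz) u s hs1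
    have h1 : ∀ a, (spec z (cst c * G : AO O L)).coeff a = evR z c * (spec z G).coeff a := by
      intro a
      rw [spec_coeff, spec_coeff, hco, map_mul]
    rw [sl_scal u lam _ _ _ (hc z) h1, Polynomial.eval_mul, hev, mul_zero]

/-- The exponents of a unitary element are symmetric. -/
theorem un_symm [IsPrincipalIdealRing O] [Module.Free ℤ L] [Module.Finite ℤ L] (hUn : UnitAS)
    {D : AO O L} (hD : Unitary D) : ∃ b : L, ∀ a ∈ supp D, b - a ∈ supp D := by
  obtain ⟨v, hv⟩ := hD
  obtain ⟨b, c, hc, hbc⟩ := (hUn O L (v : AO O L)).1 v.isUnit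
  refine ⟨b, fun a ha => ?_⟩
  have h1 : D.coeff (b - a) = rsh (D.coeff a) * c := by
    conv_lhs => rw [← hv, hbc]
    rw [AddMonoidAlgebra.coeff_mul_single_eq_coeff_mul (m₂ := -a), sharp_coeff', neg_neg]
    intro m _
    constructor
    · intro h
      have : m = b - a - b := by rw [← h]; abel
      rw [this]; abel
    · intro h
      rw [h]; abel
  change D.coeff (b - a) ≠ 0
  rw [h1]
  exact mul_ne_zero (fun h => ha (H59.rsh_eq_zero.1 h)) hc.ne_zero

/-- A constant times a Laurent polynomial which is a constant: class `V`. -/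
theorem cls_of_mul {c g : RO O} {x : O} (hx : x ≠ 0) (h : c * g = LaurentPolynomial.C x) :
    (∀ z : Circle, evR z c ≠ 0) ∧ ∃ N : ℝ, N ≤ ‖(Coef.emb x : ℂ)‖ ∧ ClassV N g := by
  obtain ⟨y, m, hy⟩ := mono_of_mul (f := g) (g := c) hx (by rw [mul_comm]; exact h)
  constructor
  · intro z hz
    have h1 := congrArg (evR z) h
    rw [map_mul, hz, zero_mul, ← Polynomial.toLaurent_C, H91.evR_toLaurent] at h1
    simp only [Polynomial.map_C, Polynomial.eval_C] at h1
    exact hx (emb_inj (by rw [← h1, map_zero]))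
  · obtain ⟨y', m', hy'⟩ := mono_of_mul (f := c) (g := g) hx h
    have h2 : LaurentPolynomial.C (y' * y) * LaurentPolynomial.T (m' + m) =
        (LaurentPolynomial.C x : RO O) := by
      rw [← h, hy, hy', LaurentPolynomial.T_add, map_mul]
      ring
    rw [← LaurentPolynomial.single_eq_C_mul_T, ← LaurentPolynomial.single_eq_C] at h2
    have h3 : y' * y = x := by
      have h5 : (AddMonoidAlgebra.single (m' + m) (y' * y) : RO O).coeff 0 =
          (AddMonoidAlgebra.single 0 x : RO O).coeff 0 := by rw [h2]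
      rw [AddMonoidAlgebra.coeff_single, AddMonoidAlgebra.coeff_single, Finsupp.single_apply,
        Finsupp.single_eq_same] at h5
      by_cases h6 : m' + m = 0
      · rw [if_pos h6] at h5
        exact h5
      · rw [if_neg h6] at h5
        exact absurd h5.symm hx
    have hy0 : y ≠ 0 := by
      rintro rfl
      rw [mul_zero] at h3
      exact hx h3.symm
    have hy0' : y' ≠ 0 := by
      rintro rfl
      rw [zero_mul] at h3
      exact hx h3.symm
    refine ⟨‖(Coef.emb y : ℂ)‖, ?_, Coef.one_le y hy0, m, Polynomial.C y, ?_, ?_, ?_⟩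
    · rw [← h3, map_mul, norm_mul]
      have := Coef.one_le y' hy0'
      nlinarith [norm_nonneg (Coef.emb y : ℂ)]
    · rw [hy, Polynomial.toLaurent_C, mul_comm]
    · rw [Polynomial.coeff_C_zero]
    · intro z _ hz
      simp only [Polynomial.map_C, Polynomial.eval_C] at hz
      exact hy0 (emb_inj (by rw [hz, map_zero]))

end

/-- (EF.5) -/
theorem wcm (hWst : WstS) (hCI : ComplIrrS) (hC : ComplS) (hUn : UnitAS) : WcmS := by
  intro O _ _ _ _ P L _ _ _ _ _ phi D q0 q l c G hDD hE hc hcG hG hrk hcop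
  obtain ⟨hW, -⟩ := hWst O L D q0 q l hE
  have hco : ∀ a, (wp q l 0 D).coeff a = c * G.coeff a := fun a => by
    rw [hcG]; exact cst_mul_coeff c G a
  have hx0 : (q0.coeff 0 : O) ≠ 0 := by
    intro h0
    apply hE.zf 0 (by simp)
    rw [← Polynomial.coeff_zero_eq_eval_zero, Polynomial.coeff_map, h0, map_zero]
  have hC0 : c * G.coeff 0 = LaurentPolynomial.C (q0.coeff 0) := by
    rw [← hco]
    apply AddMonoidAlgebra.ext
    apply Finsupp.ext
    intro k
    rw [wp_coeff, hE.c0, l.map_zero, sub_zero, ← LaurentPolynomial.single_eq_C,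
      AddMonoidAlgebra.coeff_single, Finsupp.single_apply]
    have hq := hE.qpos
    by_cases hk : k = 0
    · subst hk
      rw [if_pos (by simp), if_pos rfl, LaurentPolynomial.coeff_toLaurent]
      exact Finsupp.mapDomain_apply (Nat.castEmbedding (R := ℤ)).injective q0.toFinsupp.coeff 0
    · rw [if_neg, if_neg (fun h => hk h.symm)]
      intro h
      rcases mul_eq_zero.1 h with h | h
      · exact hq.ne' (by exact_mod_cast h)
      · exact hk h
  obtain ⟨hcz, N, hN, hcl⟩ := cls_of_mul hx0 hC0
  have hst : Stable G := stable_of_cst hcz (by rw [← hcG]; exact hW)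
  obtain ⟨h1, h2, h3, h4, h5⟩ := hC O L G hst
  obtain ⟨b, hb⟩ := un_symm hUn hDD.un
  have hsG : ∀ a ∈ supp G, a ∈ supp D := by
    intro a ha h0
    have h6 : (wp q l 0 D).coeff a ≠ 0 := by rw [hco]; exact mul_ne_zero hc ha
    apply h6
    apply AddMonoidAlgebra.ext
    apply Finsupp.ext
    intro k
    rw [wp_coeff, h0]
    simp
  have hG0 : G ≠ 0 := by
    rintro rfl
    exact hst.1 rfl
  refine ⟨b, ⟨?_, ?_, h1, h2, hCI O L G hG0 hcop, ?_⟩, N, hN, by rw [h3]; exact hcl⟩
  · intro x y hxy
    have h6 : x.2 = y.2 := congrFun hxy none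
    have h7 : phi (x.1 + x.2 • b) = phi (y.1 + y.2 • b) := by
      funext p
      exact congrFun hxy (some p)
    have h8 := hDD.inj h7
    rw [h6] at h8
    exact Prod.ext (add_right_cancel h8) h6
  · intro x hx i
    rcases h4 x hx with ⟨h6, h7⟩ | ⟨h6, h7⟩
    · cases i with
      | none => left; exact h6
      | some p =>
        have h8 := hDD.bin _ (hsG _ h7) p
        have h9 : phC phi b x (some p) = phi x.1 p := by
          change phi (x.1 + x.2 • b) p = _
          rw [h6, zero_smul, add_zero]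
        rw [h9]
        exact h8
    · cases i with
      | none => right; exact h6
      | some p =>
        have h8 := hDD.bin _ (hb _ (hsG _ h7)) p
        have h9 : phC phi b x (some p) = phi (b - -x.1) p := by
          change phi (x.1 + x.2 • b) p = _
          rw [h6, one_smul, sub_neg_eq_add, add_comm]
        rw [h9]
        exact h8
  · rw [h5, hrk, Module.finrank_prod, Module.finrank_self]

end Pool.Agent.B5.H03
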