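import Mathlib

/-!
# MP_b5021c_nt, stage 3, chapter E1: the simplicial chamber lemma `SC`

Every finite symmetric spanning set `E` of a rational vector space contains, for every non-zero
`e ∈ E`, a basis with last vector `e` for which every element of `E` has all its coordinates of
one sign.
-/

set_option autoImplicit false

open Module

namespace Pool.Agent.B5.H03

/-- Exchange of one vector of a basis. -/
theorem exch {V : Type} [AddCommGroup V] [Module ℚ V] {m : ℕ} (B : Basis (Fin m) ℚ V) (v : V)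
    (J : Fin m) (h : B.repr v J ≠ 0) : ∃ B' : Basis (Fin m) ℚ V, B' J = v ∧
      (∀ k, k ≠ J → B' k = B k) ∧ ∀ u, B'.repr u J = B.repr u J / B.repr v J ∧
      ∀ k, k ≠ J → B'.repr u k = B.repr u k - B.repr u J / B.repr v J * B.repr v k := by
  classical
  have hfd : Module.Finite ℚ V := Module.Finite.of_basis B
  set f : Fin m → V := Function.update B J v with hf
  have hJ : f J = v := by simp [hf]
  have hk : ∀ k, k ≠ J → f k = B k := fun k hk => by simp [hf, hk]
  have hsp : ⊤ ≤ Submodule.span ℚ (Set.range f) := by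
    have h1 : ∀ k, k ≠ J → B k ∈ Submodule.span ℚ (Set.range f) := by
      intro k hkJ
      rw [← hk k hkJ]
      exact Submodule.subset_span ⟨k, rfl⟩
    have h2 : v ∈ Submodule.span ℚ (Set.range f) := by
      rw [← hJ]
      exact Submodule.subset_span ⟨J, rfl⟩
    have h3 : B J ∈ Submodule.span ℚ (Set.range f) := by
      have h4 : v = B.repr v J • B J + ∑ k ∈ Finset.univ.erase J, B.repr v k • B k := by
        conv_lhs => rw [← B.sum_repr v]
        exact (Finset.add_sum_erase _ _ (Finset.mem_univ J)).symm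
      have h5 : B J = (B.repr v J)⁻¹ •
          (v - ∑ k ∈ Finset.univ.erase J, B.repr v k • B k) := by
        have h6 : v - ∑ k ∈ Finset.univ.erase J, B.repr v k • B k = B.repr v J • B J := by
          rw [sub_eq_iff_eq_add]
          exact h4
        rw [h6, smul_smul, inv_mul_cancel₀ h, one_smul]
      rw [h5]
      refine Submodule.smul_mem _ _ (Submodule.sub_mem _ h2 (Submodule.sum_mem _ ?_))
      intro k hkk
      exact Submodule.smul_mem _ _ (h1 k (Finset.ne_of_mem_erase hkk))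
    rw [← B.span_eq, Submodule.span_le]
    rintro _ ⟨k, rfl⟩
    by_cases hkJ : k = J
    · rw [hkJ]; exact h3
    · exact h1 k hkJ
  have hcard : Fintype.card (Fin m) = finrank ℚ V := (finrank_eq_card_basis B).symm
  set B' : Basis (Fin m) ℚ V := basisOfTopLeSpanOfCardEqFinrank f hsp hcard with hB'
  have hco : ⇑B' = f := coe_basisOfTopLeSpanOfCardEqFinrank f hsp hcard
  refine ⟨B', by rw [hco, hJ], fun k hkJ => by rw [hco, hk k hkJ], fun u => ⟨?_, ?_⟩⟩
  · have : B'.coord J = (B.repr v J)⁻¹ • B.coord J := by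
      apply B'.ext
      intro i
      by_cases hi : i = J
      · subst hi
        have h1 : B'.repr (B' i) i = 1 := by simp
        rw [Basis.coord_apply, h1, hco, hJ]
        simp [h]
      · have h1 : B'.repr (B' i) J = 0 := by simp [hi]
        rw [Basis.coord_apply, h1, hco, hk i hi]
        simp [hi]
    have h2 := congrArg (fun g : V →ₗ[ℚ] ℚ => g u) this
    simp only [Basis.coord_apply, LinearMap.smul_apply, smul_eq_mul] at h2
    rw [h2, div_eq_inv_mul]
  · intro k hkJ
    have : B'.coord k = B.coord k - (B.repr v k / B.repr v J) • B.coord J := by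
      apply B'.ext
      intro i
      by_cases hi : i = J
      · subst hi
        have h1 : B'.repr (B' i) k = 0 := by simp [Ne.symm hkJ]
        rw [Basis.coord_apply, h1, hco, hJ]
        simp only [LinearMap.sub_apply, Basis.coord_apply, LinearMap.smul_apply, smul_eq_mul]
        rw [div_mul_cancel₀ _ h, sub_self]
      · rw [Basis.coord_apply, B'.repr_self_apply, hco, hk i hi]
        simp only [LinearMap.sub_apply, Basis.coord_apply, LinearMap.smul_apply, smul_eq_mul,
          Basis.repr_self_apply, if_neg hi, mul_zero, sub_zero]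
    have h2 := congrArg (fun g : V →ₗ[ℚ] ℚ => g u) this
    simp only [Basis.coord_apply, LinearMap.sub_apply, LinearMap.smul_apply, smul_eq_mul] at h2
    rw [h2]
    ring

/-- A basis in a spanning set. -/
theorem ebas {V : Type} [AddCommGroup V] [Module ℚ V] (E : Set V) (hE : E.Finite)
    (hsp : Submodule.span ℚ E = ⊤) (n : ℕ) (hn : finrank ℚ V = n) :
    ∃ b : Basis (Fin n) ℚ V, ∀ i, b i ∈ E := by
  classical
  obtain ⟨s, hs, hs1, hs2⟩ := exists_linearIndependent ℚ E
  have hfin : Finite s := (hE.subset hs).to_subtype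
  have : Fintype s := Fintype.ofFinite s
  have htop : ⊤ ≤ Submodule.span ℚ (Set.range ((↑) : s → V)) := by
    rw [Subtype.range_coe, hs1, hsp]
  set b : Basis s ℚ V := Basis.mk hs2 htop with hb
  have hc : Fintype.card s = n := by rw [← finrank_eq_card_basis b, hn]
  refine ⟨b.reindex (Fintype.equivFinOfCardEq hc), fun i => ?_⟩
  rw [Basis.reindex_apply, hb, Basis.mk_apply]
  exact hs (Subtype.coe_prop _)

/-- Finitely many bases in a finite set. -/
theorem fbas {V : Type} [AddCommGroup V] [Module ℚ V] (E : Set V) (hE : E.Finite) (n : ℕ) :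
    {b : Basis (Fin n) ℚ V | ∀ i, b i ∈ E}.Finite := by
  have h1 : {f : Fin n → V | ∀ i, f i ∈ E}.Finite := by
    have := Set.Finite.pi' (fun _ : Fin n => hE)
    exact this
  exact Set.Finite.preimage (f := fun b : Basis (Fin n) ℚ V => (b : Fin n → V))
    (fun b _ b' _ h => DFunLike.coe_injective h) h1

/-- Extension of a basis of the kernel of a coordinate. -/
theorem ckr {V : Type} [AddCommGroup V] [Module ℚ V] {n : ℕ} (B : Basis (Fin (n + 1)) ℚ V)
    (b' : Basis (Fin n) ℚ (LinearMap.ker (B.coord 0))) :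
    ∃ bb : Basis (Fin (n + 1)) ℚ V, bb 0 = B 0 ∧ (∀ i : Fin n, bb i.succ = b' i) ∧
      (∀ x, bb.repr x 0 = B.repr x 0) ∧
      ∀ (x : V) (w : LinearMap.ker (B.coord 0)), (w : V) = x - B.repr x 0 • B 0 →
        ∀ i : Fin n, bb.repr x i.succ = b'.repr w i := by
  have hli : ∀ (c : ℚ), ∀ x ∈ LinearMap.ker (B.coord 0), c • B 0 + x = 0 → c = 0 := by
    intro c x hx h
    have h1 : B.coord 0 (c • B 0 + x) = 0 := by rw [h, LinearMap.map_zero]
    rw [map_add, map_smul, LinearMap.mem_ker.1 hx] at h1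
    simpa using h1
  have hsp : ∀ z : V, ∃ c : ℚ, z + c • B 0 ∈ LinearMap.ker (B.coord 0) := by
    intro z
    refine ⟨-(B.coord 0 z), ?_⟩
    rw [LinearMap.mem_ker, map_add, map_smul]
    simp
  set bb : Basis (Fin (n + 1)) ℚ V := Basis.mkFinCons (B 0) b' hli hsp with hbb
  have hco : ⇑bb = Fin.cons (B 0) ((↑) ∘ b') := Basis.coe_mkFinCons _ _ _ _
  have h0 : bb 0 = B 0 := by rw [hco]; rfl
  have hs : ∀ i : Fin n, bb i.succ = b' i := by intro i; rw [hco]; rfl
  have key : ∀ (x : V) (w : LinearMap.ker (B.coord 0)), (w : V) = x - B.repr x 0 • B 0 →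
      ∀ j, bb.repr x j = (Fin.cons (B.repr x 0) (fun i => b'.repr w i) : Fin (n + 1) → ℚ) j := by
    intro x w hw j
    have h1 : x = ∑ j, (Fin.cons (B.repr x 0) (fun i => b'.repr w i) : Fin (n + 1) → ℚ) j • bb j := by
      rw [Fin.sum_univ_succ]
      simp only [Fin.cons_zero, Fin.cons_succ, h0, hs]
      have h2 : ∑ i, b'.repr w i • ((b' i : LinearMap.ker (B.coord 0)) : V) = w := by
        conv_rhs => rw [← b'.sum_repr w]
        rw [Submodule.coe_sum]
        rfl
      rw [h2, hw]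
      abel
    conv_lhs => rw [h1]
    rw [Basis.repr_sum_self]
  refine ⟨bb, h0, hs, fun x => ?_, fun x w hw i => ?_⟩
  · have hw : x - B.repr x 0 • B 0 ∈ LinearMap.ker (B.coord 0) := by
      rw [LinearMap.mem_ker, map_sub, map_smul]
      simp
    rw [key x ⟨_, hw⟩ rfl 0]
    rfl
  · rw [key x w hw i.succ]
    rfl

/-- `u` is off all coordinate hyperplanes of all bases in `E`. -/
def Gen {V : Type} [AddCommGroup V] [Module ℚ V] (E : Set V) (n : ℕ) (u : V) : Prop :=
  ∀ b : Basis (Fin n) ℚ V, (∀ i, b i ∈ E) → ∀ i, b.repr u i ≠ 0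

/-- The statement of the chamber lemma in dimension `n`. -/
def ASt (n : ℕ) : Prop := ∀ (V : Type) [AddCommGroup V] [Module ℚ V] (E : Set V), E.Finite →
  (∀ v ∈ E, -v ∈ E) → Submodule.span ℚ E = ⊤ → finrank ℚ V = n → ∀ u, Gen E n u →
  ∃ b : Basis (Fin n) ℚ V, (∀ i, b i ∈ E) ∧ (∀ i, 0 < b.repr u i) ∧
    ∀ v ∈ E, (∀ i, 0 ≤ b.repr v i) ∨ (∀ i, b.repr v i ≤ 0)

theorem dst (n : ℕ) (hA : ASt n) (V : Type) [AddCommGroup V] [Module ℚ V] (E : Set V)
    (hE : E.Finite) (hneg : ∀ v ∈ E, -v ∈ E) (hsp : Submodule.span ℚ E = ⊤)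
    (hn : finrank ℚ V = n + 1) (u : V) (hu : Gen E (n + 1) u) (e : V) (he : e ∈ E) (he0 : e ≠ 0) :
    ∃ b : Basis (Fin (n + 1)) ℚ V, (∀ i, b i ∈ E) ∧ (b 0 = e ∨ b 0 = -e) ∧
      (∀ i, 0 < b.repr u i) ∧ ∀ v ∈ E, (∀ i, 0 ≤ b.repr v i) ∨ (∀ i, b.repr v i ≤ 0) := by
  classical
  set S : Set (Basis (Fin (n + 1)) ℚ V) := {b | (∀ i, b i ∈ E) ∧ (b 0 = e ∨ b 0 = -e)} with hS
  have hSf : S.Finite := (fbas E hE (n + 1)).subset fun b hb => hb.1
  have hSn : S.Nonempty := by
    obtain ⟨b, hb⟩ := ebas E hE hsp (n + 1) hn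
    obtain ⟨J, hJ⟩ : ∃ J, b.repr e J ≠ 0 := by
      by_contra h
      push Not at h
      exact he0 (b.repr.map_eq_zero_iff.1 (Finsupp.ext h))
    obtain ⟨b1, h1, h2, -⟩ := exch b e J hJ
    refine ⟨b1.reindex (Equiv.swap J 0), fun i => ?_, Or.inl ?_⟩
    · rw [Basis.reindex_apply]
      by_cases hi : (Equiv.swap J 0).symm i = J
      · rw [hi, h1]; exact he
      · rw [h2 _ hi]; exact hb _
    · rw [Basis.reindex_apply, Equiv.symm_swap, Equiv.swap_apply_right, h1]
  obtain ⟨B, hB, hmax⟩ := Set.exists_max_image S (fun b => b.repr u 0) hSf hSn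
  obtain ⟨hBE, hB0⟩ := hB
  have hc0 : B.repr u 0 ≠ 0 := hu B hBE 0
  have hcpos : 0 < B.repr u 0 := by
    by_contra hc
    have hc' : B.repr u 0 < 0 := lt_of_le_of_ne (not_lt.1 hc) hc0
    have h1 : B.repr (-B 0) 0 = -1 := by simp
    obtain ⟨B', h2, h3, h4⟩ := exch B (-B 0) 0 (by rw [h1]; norm_num)
    have h5 : B' ∈ S := by
      refine ⟨fun i => ?_, ?_⟩
      · by_cases hi : i = 0
        · rw [hi, h2]; exact hneg _ (hBE 0)
        · rw [h3 i hi]; exact hBE i
      · rw [h2]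
        rcases hB0 with h | h
        · right; rw [h]
        · left; rw [h, neg_neg]
    have h6 := hmax B' h5
    rw [(h4 u).1, h1, div_neg, div_one] at h6
    linarith
  set W := LinearMap.ker (B.coord 0) with hW
  set EW : Set W := {w | (w : V) ∈ E} with hEW
  have hfd : Module.Finite ℚ V := Module.Finite.of_basis B
  have hWn : finrank ℚ W = n := by
    have h1 := LinearMap.finrank_range_add_finrank_ker (B.coord 0)
    have h2 : LinearMap.range (B.coord 0) = ⊤ := by
      rw [LinearMap.range_eq_top]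
      intro q
      exact ⟨q • B 0, by simp⟩
    rw [h2, finrank_top, finrank_self, hn, ← hW] at h1
    omega
  have hEWf : EW.Finite := Set.Finite.preimage (f := ((↑) : W → V))
    (Subtype.val_injective.injOn) hE
  have hEWn : ∀ v ∈ EW, -v ∈ EW := fun v hv => hneg _ hv
  have hmemW : ∀ i : Fin n, B i.succ ∈ W := by
    intro i
    rw [hW, LinearMap.mem_ker, Basis.coord_apply, Basis.repr_self_apply,
      if_neg (Fin.succ_ne_zero i)]
  have hEWs : Submodule.span ℚ EW = ⊤ := by
    rw [eq_top_iff]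
    rintro w -
    have h1 : w = ∑ i : Fin n, B.repr (w : V) i.succ • (⟨B i.succ, hmemW i⟩ : W) := by
      apply Subtype.ext
      rw [Submodule.coe_sum]
      have h2 := B.sum_repr (w : V)
      rw [Fin.sum_univ_succ] at h2
      have h3 : B.repr (w : V) 0 = 0 := LinearMap.mem_ker.1 w.2
      rw [h3, zero_smul, zero_add] at h2
      exact h2.symm
    rw [h1]
    refine Submodule.sum_mem _ fun i _ => Submodule.smul_mem _ _ (Submodule.subset_span ?_)
    exact hBE _
  have hu'm : u - B.repr u 0 • B 0 ∈ W := by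
    rw [hW, LinearMap.mem_ker, map_sub, map_smul]
    simp
  have hgen : Gen EW n (⟨_, hu'm⟩ : W) := by
    intro b' hb' i
    obtain ⟨bb, h1, h2, h3, h4⟩ := ckr B b'
    rw [← h4 u ⟨_, hu'm⟩ rfl i]
    apply hu bb
    intro j
    refine Fin.cases ?_ (fun j => ?_) j
    · rw [h1]; exact hBE 0
    · rw [h2]; exact hb' j
  obtain ⟨b', hb1, hb2, hb3⟩ := hA W EW hEWf hEWn hEWs hWn ⟨_, hu'm⟩ hgen
  obtain ⟨bb, h1, h2, h3, h4⟩ := ckr B b'
  have hbbE : ∀ j, bb j ∈ E := by
    intro j
    refine Fin.cases ?_ (fun j => ?_) j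
    · rw [h1]; exact hBE 0
    · rw [h2]; exact hb1 j
  have hbb0 : bb 0 = e ∨ bb 0 = -e := by rw [h1]; exact hB0
  have hpos : ∀ j, 0 < bb.repr u j := by
    intro j
    refine Fin.cases ?_ (fun j => ?_) j
    · rw [h3]; exact hcpos
    · rw [h4 u ⟨_, hu'm⟩ rfl j]; exact hb2 j
  have hge : ∀ v ∈ E, 0 < bb.repr v 0 → ∀ i, 0 ≤ bb.repr v i := by
    intro v hv hv0 i
    by_contra hi
    rw [not_le] at hi
    have hi0 : i ≠ 0 := by
      rintro rfl
      linarith
    obtain ⟨B', g1, g2, g3⟩ := exch bb v i hi.ne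
    have g4 : B' ∈ S := by
      refine ⟨fun j => ?_, ?_⟩
      · by_cases hj : j = i
        · rw [hj, g1]; exact hv
        · rw [g2 j hj]; exact hbbE j
      · rw [g2 0 hi0.symm]; exact hbb0
    have g5 := hmax B' g4
    rw [(g3 u).2 0 hi0.symm, h3 u] at g5
    have g6 : bb.repr u i / bb.repr v i < 0 := div_neg_of_pos_of_neg (hpos i) hi
    have g7 := mul_neg_of_neg_of_pos g6 hv0
    linarith
  refine ⟨bb, hbbE, hbb0, hpos, fun v hv => ?_⟩
  rcases lt_trichotomy (bb.repr v 0) 0 with h | h | h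
  · right
    have h5 := hge (-v) (hneg v hv) (by rw [map_neg]; simpa using h)
    intro i
    have h6 := h5 i
    rw [map_neg] at h6
    simpa using h6
  · have h5 : v ∈ W := by
      rw [hW, LinearMap.mem_ker, Basis.coord_apply, ← h3 v, h]
    have h6 : ((⟨v, h5⟩ : W) : V) = v - B.repr v 0 • B 0 := by
      rw [← h3 v, h]; simp
    rcases hb3 ⟨v, h5⟩ hv with h7 | h7
    · left
      intro j
      refine Fin.cases ?_ (fun j => ?_) j
      · rw [h]
      · rw [h4 v ⟨v, h5⟩ h6 j]; exact h7 j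
    · right
      intro j
      refine Fin.cases ?_ (fun j => ?_) j
      · rw [h]
      · rw [h4 v ⟨v, h5⟩ h6 j]; exact h7 j
  · exact Or.inl (hge v hv h)

theorem ast : ∀ n, ASt n
  | 0 => by
    intro V _ _ E hE hneg hsp hn u hu
    obtain ⟨b, hb⟩ := ebas E hE hsp 0 hn
    exact ⟨b, hb, fun i => i.elim0, fun v _ => Or.inl fun i => i.elim0⟩
  | n + 1 => by
    intro V _ _ E hE hneg hsp hn u hu
    obtain ⟨b, hb⟩ := ebas E hE hsp (n + 1) hn
    obtain ⟨b', h1, -, h2, h3⟩ := dst n (ast n) V E hE hneg hsp hn u hu (b 0) (hb 0) (b.ne_zero 0)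
    exact ⟨b', h1, h2, h3⟩

/-- Generic vectors exist. -/
theorem egen {V : Type} [AddCommGroup V] [Module ℚ V] (E : Set V) (hE : E.Finite) (n : ℕ) :
    ∃ u, Gen E n u := by
  set S : Set (Basis (Fin n) ℚ V) := {b | ∀ i, b i ∈ E} with hS
  have hSf : Finite S := (fbas E hE n).to_subtype
  by_contra hno
  unfold Gen at hno
  push Not at hno
  have hcov : (⋃ i : S × Fin n, ((LinearMap.ker ((i.1 : Basis (Fin n) ℚ V).coord i.2) :
      Submodule ℚ V) : Set V)) = Set.univ := by
    rw [Set.eq_univ_iff_forall]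
    intro u
    obtain ⟨b, hb, i, hi⟩ := hno u
    rw [Set.mem_iUnion]
    exact ⟨(⟨b, hb⟩, i), hi⟩
  obtain ⟨i, hi⟩ := Subspace.exists_eq_top_of_iUnion_eq_univ hcov
  have h1 : (i.1 : Basis (Fin n) ℚ V) i.2 ∈ LinearMap.ker ((i.1 : Basis (Fin n) ℚ V).coord i.2) := by
    rw [hi]; trivial
  rw [LinearMap.mem_ker] at h1
  simp at h1

/-- The chamber lemma (statement of helper39). -/
def ScS : Prop := ∀ (V : Type) [AddCommGroup V] [Module ℚ V] (E : Set V), E.Finite →
  (∀ v ∈ E, -v ∈ E) → Submodule.span ℚ E = ⊤ → ∀ e ∈ E, e ≠ 0 →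
  ∃ (n : ℕ) (b : Module.Basis (Fin (n + 1)) ℚ V), (∀ i, b i ∈ E) ∧ b (Fin.last n) = e ∧
    ∀ v ∈ E, (∀ i, 0 ≤ b.repr v i) ∨ (∀ i, b.repr v i ≤ 0)

/-- SC. -/
theorem sc : ScS := by
  intro V _ _ E hE hneg hsp e he he0
  have hfd : Module.Finite ℚ V := ⟨⟨hE.toFinset, by rw [hE.coe_toFinset, hsp]⟩⟩
  have hnt : Nontrivial V := ⟨e, 0, he0⟩
  obtain ⟨n, hn⟩ : ∃ n, finrank ℚ V = n + 1 :=
    Nat.exists_eq_succ_of_ne_zero (finrank_pos (R := ℚ) (M := V)).ne'
  obtain ⟨u, hu⟩ := egen E hE (n + 1)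
  obtain ⟨b, hb, hb0, -, hb2⟩ := dst n (ast n) V E hE hneg hsp hn u hu e he he0
  obtain ⟨b1, h1, h2, h3⟩ : ∃ b1 : Basis (Fin (n + 1)) ℚ V, (∀ i, b1 i ∈ E) ∧ b1 0 = e ∧
      ∀ v ∈ E, (∀ i, 0 ≤ b1.repr v i) ∨ (∀ i, b1.repr v i ≤ 0) := by
    rcases hb0 with h | h
    · exact ⟨b, hb, h, hb2⟩
    · refine ⟨b.map (LinearEquiv.neg ℚ), fun i => ?_, ?_, fun v hv => ?_⟩
      · rw [Basis.map_apply]
        exact hneg _ (hb i)
      · rw [Basis.map_apply, h]
        simp
      · rcases hb2 (-v) (hneg v hv) with h4 | h4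
        · left
          intro i
          exact h4 i
        · right
          intro i
          exact h4 i
  refine ⟨n, b1.reindex Fin.revPerm, fun i => ?_, ?_, fun v hv => ?_⟩
  · rw [Basis.reindex_apply]
    exact h1 _
  · rw [Basis.reindex_apply]
    simpa using h2
  · rcases h3 v hv with h4 | h4
    · left
      intro i
      rw [Basis.repr_reindex_apply]
      exact h4 _
    · right
      intro i
      rw [Basis.repr_reindex_apply]
      exact h4 _

end Pool.Agent.B5.H03
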